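import Pool.Agent.Q74.BH.Stm

/-! # Project BH (helper74), job Mix3: mixing for all integers -/

set_option autoImplicit false

namespace Pool.Agent.Q241.BH

open Finset
open Pool.Agent.Q74.BH
open Pool.Agent.H320R2.PD (FWT wwt Wo)
open Pool.Agent.H499R2.ND (GW cls dev mem_cls)

lemma card_shift (S : Set ℤ) (a b : ℝ) (N n : ℕ) (hn : n ≤ N) (T : ℕ) (v : ℤ)
    [DecidablePred (fun z : ℤ => z ∈ S ∧ (3 : ℤ) ^ n ∣ 2 ^ T * z - v)] :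
    ((Ico ⌈a⌉ ⌈b⌉).filter (fun z => z ∈ S ∧ (3 : ℤ) ^ n ∣ 2 ^ T * z - v)).card =
      (cls {x : ℤ | (x - 3 ^ N) / 2 ∈ S} (2 * a + 3 ^ N) (2 * b + 3 ^ N) n (2 ^ T) (2 * v)).card := by
  have hodd : Odd ((3 : ℤ) ^ N) := Odd.pow (by decide)
  have hdiv : (3 : ℤ) ^ n ∣ 3 ^ N := pow_dvd_pow 3 hn
  have hcop : IsCoprime ((3 : ℤ) ^ n) 2 := by
    apply IsCoprime.pow_left
    rw [Int.isCoprime_iff_gcd_eq_one]
    norm_num
  have hiff : ∀ z : ℤ, (3 : ℤ) ^ n ∣ 2 ^ T * (2 * z + 3 ^ N) - 2 * v ↔ (3 : ℤ) ^ n ∣ 2 ^ T * z - v := by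
    intro z
    have e1 : 2 ^ T * (2 * z + 3 ^ N) - 2 * v = 2 * (2 ^ T * z - v) + 2 ^ T * (3 : ℤ) ^ N := by ring
    rw [e1, dvd_add_left (Dvd.dvd.mul_left hdiv _)]
    exact ⟨fun h => hcop.dvd_of_dvd_mul_left h, fun h => Dvd.dvd.mul_left h _⟩
  refine card_nbij' (fun z => 2 * z + 3 ^ N) (fun x => (x - 3 ^ N) / 2) ?_ ?_ ?_ ?_
  · intro z hz
    rw [mem_coe, mem_filter, mem_Ico, Int.ceil_le, Int.lt_ceil] at hz
    rw [mem_coe, mem_cls]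
    obtain ⟨⟨h1, h2⟩, h3, h4⟩ := hz
    refine ⟨⟨?_, ?_⟩, ?_, ?_, (hiff z).2 h4⟩
    · push_cast
      linarith
    · push_cast
      linarith
    · exact (even_two_mul z).add_odd hodd
    · show (2 * z + 3 ^ N - 3 ^ N) / 2 ∈ S
      rw [add_sub_cancel_right, Int.mul_ediv_cancel_left _ (by norm_num)]
      exact h3
  · intro x hx
    rw [mem_coe, mem_cls] at hx
    obtain ⟨⟨h1, h2⟩, h3, h4, h5⟩ := hx
    obtain ⟨z, hz⟩ : ∃ z : ℤ, x - 3 ^ N = 2 * z := by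
      obtain ⟨z, hz⟩ := h3.sub_odd hodd
      exact ⟨z, by rw [hz]; ring⟩
    have hx' : x = 2 * z + 3 ^ N := by linarith
    have hz2 : (x - 3 ^ N) / 2 = z := by
      rw [hz, Int.mul_ediv_cancel_left _ (by norm_num)]
    have h4' : (x - 3 ^ N) / 2 ∈ S := h4
    rw [hz2] at h4'
    show (x - 3 ^ N) / 2 ∈ _
    rw [hz2, mem_coe, mem_filter, mem_Ico, Int.ceil_le, Int.lt_ceil]
    rw [hx'] at h1 h2 h5
    push_cast at h1 h2
    refine ⟨⟨by linarith, by linarith⟩, h4', (hiff z).1 h5⟩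
  · intro z _
    show (2 * z + 3 ^ N - 3 ^ N) / 2 = z
    rw [add_sub_cancel_right, Int.mul_ediv_cancel_left _ (by norm_num)]
  · intro x hx
    rw [mem_coe, mem_cls] at hx
    obtain ⟨z, hz⟩ : ∃ z : ℤ, x - 3 ^ N = 2 * z := by
      obtain ⟨z, hz⟩ := hx.2.1.sub_odd hodd
      exact ⟨z, by rw [hz]; ring⟩
    show 2 * ((x - 3 ^ N) / 2) + 3 ^ N = x
    rw [hz, Int.mul_ediv_cancel_left _ (by norm_num)]
    linarith

theorem mix3 : S_Mix3 := by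
  classical
  intro S a b hab A k m m' T hm' hk c
  have h := Pool.Agent.Q158.Col3.mixT2 (d := 2) (by
    rw [Int.isCoprime_iff_gcd_eq_one]; norm_num) {x : ℤ | (x - 3 ^ (k + m)) / 2 ∈ S}
    (a := 2 * a + 3 ^ (k + m)) (b := 2 * b + 3 ^ (k + m)) (by linarith) A k m m' T hm' hk (2 * c)
  have e1 : ∀ w : List ℕ, (2 : ℤ) * (Wo w : ℤ) + 3 ^ k * (2 * c) = 2 * ((Wo w : ℤ) + 3 ^ k * c) := fun w => by ring
  simp only [e1] at h
  have e2 : (2 * b + 3 ^ (k + m) - (2 * a + 3 ^ (k + m))) / (2 * 3 ^ (k + m)) = (b - a) / 3 ^ (k + m) := by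
    field_simp
    ring
  rw [e2] at h
  have e3 : ∀ w : List ℕ, (cls {x : ℤ | (x - 3 ^ (k + m)) / 2 ∈ S} (2 * a + 3 ^ (k + m)) (2 * b + 3 ^ (k + m)) (k + m)
      (2 ^ T) (2 * ((Wo w : ℤ) + 3 ^ k * c))).card =
      ((Ico ⌈a⌉ ⌈b⌉).filter (fun z => z ∈ S ∧ (3 : ℤ) ^ (k + m) ∣ 2 ^ T * z - ((Wo w : ℤ) + 3 ^ k * c))).card :=
    fun w => (card_shift S a b (k + m) (k + m) le_rfl T _).symm
  have e4 : ∀ w : List ℕ, (cls {x : ℤ | (x - 3 ^ (k + m)) / 2 ∈ S} (2 * a + 3 ^ (k + m)) (2 * b + 3 ^ (k + m)) m'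
      (2 ^ T) (2 * (Wo w : ℤ))).card =
      ((Ico ⌈a⌉ ⌈b⌉).filter (fun z => z ∈ S ∧ (3 : ℤ) ^ m' ∣ 2 ^ T * z - (Wo w : ℤ))).card :=
    fun w => (card_shift S a b (k + m) m' (by omega) T _).symm
  simp only [e3, e4] at h
  convert h using 4

end Pool.Agent.Q241.BH
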