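import Mathlib

/-! # Project BH (helper74), job Shift: general lemmas -/

set_option autoImplicit false

namespace Pool.Agent.Q241.BH

open Finset

/-- products of close weights, one coordinate after the other -/
lemma prod_diff (k : ℕ) (U : Fin k → Finset ℤ) (p p' : Fin k → ℤ → ℝ) (ε : ℝ)
    (hp : ∀ i z, 0 ≤ p i z) (hp' : ∀ i z, 0 ≤ p' i z)
    (h2 : ∀ i, ∑ z ∈ U i, p i z ≤ 2) (h2' : ∀ i, ∑ z ∈ U i, p' i z ≤ 2)
    (hε : ∀ i, ∑ z ∈ U i, |p i z - p' i z| ≤ ε) :
    ∑ z ∈ Fintype.piFinset U, |∏ i, p i (z i) - ∏ i, p' i (z i)| ≤ k * ε * 2 ^ k / 2 := by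
  classical
  set q : Fin k → Fin k → ℤ → ℝ := fun i j z =>
    if j < i then p j z else if j = i then |p j z - p' j z| else p' j z with hq
  have hq0 : ∀ i j z, 0 ≤ q i j z := by
    intro i j z
    rw [hq]
    simp only
    split_ifs
    · exact hp _ _
    · exact abs_nonneg _
    · exact hp' _ _
  have hpt : ∀ z : Fin k → ℤ, |∏ i, p i (z i) - ∏ i, p' i (z i)| ≤ ∑ i, ∏ j, q i j (z j) := by
    intro z
    have e1 := prod_add_ordered (univ : Finset (Fin k)) (fun i => p' i (z i)) (fun i => p i (z i) - p' i (z i))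
    simp only [add_sub_cancel] at e1
    rw [e1, add_sub_cancel_left]
    refine (abs_sum_le_sum_abs _ _).trans (sum_le_sum fun i _ => le_of_eq ?_)
    rw [abs_mul, abs_mul, abs_of_nonneg (prod_nonneg fun j _ => hp j _), abs_of_nonneg (prod_nonneg fun j _ => hp' j _)]
    rw [← mul_prod_erase univ (fun j => q i j (z j)) (mem_univ i)]
    have e2 : q i i (z i) = |p i (z i) - p' i (z i)| := by
      rw [hq]
      simp
    have e3 : ∏ j ∈ univ.erase i, q i j (z j) =
        (∏ j ∈ univ with j < i, p j (z j)) * ∏ j ∈ univ with i < j, p' j (z j) := by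
      have e4 : (univ.erase i : Finset (Fin k)) = (univ.filter (fun j => j < i)) ∪ (univ.filter (fun j => i < j)) := by
        ext j
        simp only [mem_erase, mem_univ, and_true, mem_union, mem_filter, true_and]
        exact lt_or_lt_iff_ne.symm
      rw [e4, prod_union]
      · congr 1
        · refine prod_congr rfl fun j hj => ?_
          have hji := (mem_filter.1 hj).2
          rw [hq]
          simp only
          rw [if_pos hji]
        · refine prod_congr rfl fun j hj => ?_
          have hji := (mem_filter.1 hj).2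
          rw [hq]
          simp only
          rw [if_neg (not_lt.2 hji.le), if_neg hji.ne']
      · rw [disjoint_filter]
        intro j _ h1 h2
        exact lt_asymm h1 h2
    rw [e2, e3]
    ring
  have hcard : ∀ i : Fin k, ∏ j, ∑ z ∈ U j, q i j z ≤ ε * (2 ^ k / 2) := by
    intro i
    rw [← mul_prod_erase univ (fun j => ∑ z ∈ U j, q i j z) (mem_univ i)]
    have e2 : ∑ z ∈ U i, q i i z ≤ ε := by
      refine le_trans (le_of_eq ?_) (hε i)
      refine sum_congr rfl fun z _ => ?_
      rw [hq]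
      simp
    have e3 : ∏ j ∈ univ.erase i, ∑ z ∈ U j, q i j z ≤ 2 ^ k / 2 := by
      have hk : (2 : ℝ) ^ k / 2 = ∏ j ∈ (univ.erase i : Finset (Fin k)), (2 : ℝ) := by
        rw [prod_const, card_erase_of_mem (mem_univ i), card_univ, Fintype.card_fin]
        have : 0 < k := i.pos
        obtain ⟨r, rfl⟩ : ∃ r, k = r + 1 := ⟨k - 1, by omega⟩
        rw [pow_succ]
        simp
      rw [hk]
      refine prod_le_prod (fun j _ => sum_nonneg fun z _ => hq0 _ _ _) fun j hj => ?_
      have hji : j ≠ i := ne_of_mem_erase hj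
      by_cases hlt : j < i
      · refine le_trans (le_of_eq ?_) (h2 j)
        refine sum_congr rfl fun z _ => ?_
        rw [hq]
        simp only
        rw [if_pos hlt]
      · refine le_trans (le_of_eq ?_) (h2' j)
        refine sum_congr rfl fun z _ => ?_
        rw [hq]
        simp only
        rw [if_neg hlt, if_neg hji]
    have e4 : 0 ≤ ∑ z ∈ U i, q i i z := sum_nonneg fun z _ => hq0 _ _ _
    have e5 : 0 ≤ ∏ j ∈ univ.erase i, ∑ z ∈ U j, q i j z := prod_nonneg fun j _ => sum_nonneg fun z _ => hq0 _ _ _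
    exact mul_le_mul e2 e3 e5 (e4.trans e2)
  calc ∑ z ∈ Fintype.piFinset U, |∏ i, p i (z i) - ∏ i, p' i (z i)|
      ≤ ∑ z ∈ Fintype.piFinset U, ∑ i, ∏ j, q i j (z j) := sum_le_sum fun z _ => hpt z
    _ = ∑ i, ∑ z ∈ Fintype.piFinset U, ∏ j, q i j (z j) := sum_comm
    _ = ∑ i, ∏ j, ∑ z ∈ U j, q i j z := sum_congr rfl fun i _ => (prod_univ_sum U (fun j z => q i j z)).symm
    _ ≤ ∑ _i : Fin k, ε * (2 ^ k / 2) := sum_le_sum fun i _ => hcard i
    _ = k * ε * 2 ^ k / 2 := by
      rw [sum_const, card_univ, Fintype.card_fin, nsmul_eq_mul]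
      ring

lemma sum_Ico_range (f : ℤ → ℝ) (a : ℤ) (L : ℕ) : ∑ x ∈ Ico a (a + L), f x = ∑ n ∈ range L, f (a + n) := by
  refine sum_nbij' (fun x => (x - a).toNat) (fun n => a + n) ?_ ?_ ?_ ?_ ?_
  · intro x hx
    rw [mem_Ico] at hx
    rw [mem_range]
    omega
  · intro n hn
    rw [mem_range] at hn
    rw [mem_Ico]
    constructor <;> omega
  · intro x hx
    rw [mem_Ico] at hx
    omega
  · intro n hn
    simp
  · intro x hx
    rw [mem_Ico] at hx
    congr 1
    omega

/-- shift of the range of summation -/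
lemma sum_shift (g : ℤ → ℝ) (M : ℝ) (hg : ∀ x, |g x| ≤ M) (a : ℤ) (L δ : ℕ) :
    |∑ x ∈ Ico a (a + L), g (x + δ) - ∑ x ∈ Ico a (a + L), g x| ≤ 2 * δ * M := by
  induction δ with
  | zero => simp
  | succ δ ih =>
    have e1 : ∑ x ∈ Ico a (a + L), g (x + (δ + 1 : ℕ)) - ∑ x ∈ Ico a (a + L), g (x + δ) =
        g (a + L + δ) - g (a + δ) := by
      rw [sum_Ico_range, sum_Ico_range, ← sum_sub_distrib]
      have e2 := sum_range_sub (fun n : ℕ => g (a + n + δ)) L
      simp only [Nat.cast_zero, add_zero] at e2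
      rw [← e2]
      refine sum_congr rfl fun n _ => ?_
      congr 2
      push_cast
      ring
    have e3 : ∑ x ∈ Ico a (a + L), g (x + (δ + 1 : ℕ)) - ∑ x ∈ Ico a (a + L), g x =
        (∑ x ∈ Ico a (a + L), g (x + (δ + 1 : ℕ)) - ∑ x ∈ Ico a (a + L), g (x + δ)) +
        (∑ x ∈ Ico a (a + L), g (x + δ) - ∑ x ∈ Ico a (a + L), g x) := by ring
    rw [e3, e1]
    have h1 := abs_add_le (g (a + L + δ) - g (a + δ)) (∑ x ∈ Ico a (a + L), g (x + δ) - ∑ x ∈ Ico a (a + L), g x)
    have h2 := abs_sub (g (a + L + δ)) (g (a + δ))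
    have h3 := hg (a + L + δ)
    have h4 := hg (a + δ)
    push_cast
    linarith

/-- the difference of the two weights, one sliding window -/
lemma window_diff (A B A' B' : ℤ) (hA : A ≤ A') (hA' : A' ≤ A + 1) (hB : B ≤ B') (hB' : B' ≤ B + 1)
    (β : ℤ → ℝ) (θ : ℝ) (h0 : ∀ z, 0 ≤ β z ∧ β z ≤ θ) (U : Finset ℤ) :
    ∑ z ∈ U, |(if z ∈ Ico A B then β z else 0) - (if z ∈ Ico A' B' then β z else 0)| ≤ 2 * θ := by
  have hθ : 0 ≤ θ := (h0 0).1.trans (h0 0).2
  calc _ ≤ ∑ z ∈ U, ((if z = A then θ else 0) + (if z = B then θ else 0)) := by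
        refine sum_le_sum fun z _ => ?_
        obtain ⟨h1, h2⟩ := h0 z
        have hn1 : (0 : ℝ) ≤ if z = A then θ else 0 := by split_ifs <;> linarith
        have hn2 : (0 : ℝ) ≤ if z = B then θ else 0 := by split_ifs <;> linarith
        by_cases hz : z ∈ Ico A B
        · by_cases hz' : z ∈ Ico A' B'
          · rw [if_pos hz, if_pos hz', sub_self, abs_zero]
            linarith
          · have hzA : z = A := by
              rw [mem_Ico] at hz hz'
              omega
            rw [if_pos hz, if_neg hz', sub_zero, abs_of_nonneg h1, if_pos hzA]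
            linarith
        · by_cases hz' : z ∈ Ico A' B'
          · have hzB : z = B := by
              rw [mem_Ico] at hz hz'
              omega
            rw [if_neg hz, if_pos hz', zero_sub, abs_neg, abs_of_nonneg h1, if_pos hzB]
            linarith
          · rw [if_neg hz, if_neg hz', sub_self, abs_zero]
            linarith
    _ ≤ θ + θ := by
        rw [sum_add_distrib, sum_ite_eq', sum_ite_eq']
        refine add_le_add ?_ ?_ <;> split_ifs <;> linarith
    _ = 2 * θ := by ring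

/-- extension of a sum over a product of finite sets by zero -/
lemma sum_ext (k : ℕ) (I U : Fin k → Finset ℤ) (hI : ∀ i, I i ⊆ U i) (β : Fin k → ℤ → ℝ) (Ψ : (Fin k → ℤ) → ℝ) :
    ∑ z ∈ Fintype.piFinset I, (∏ i, β i (z i)) * Ψ z =
      ∑ z ∈ Fintype.piFinset U, (∏ i, if z i ∈ I i then β i (z i) else 0) * Ψ z := by
  rw [← sum_subset (Fintype.piFinset_subset I U hI)]
  · refine sum_congr rfl fun z hz => ?_
    congr 1
    refine prod_congr rfl fun i _ => ?_
    rw [if_pos (Fintype.mem_piFinset.1 hz i)]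
  · intro z _ hz
    rw [Fintype.mem_piFinset, not_forall] at hz
    obtain ⟨i, hi⟩ := hz
    rw [prod_eq_zero (mem_univ i) (if_neg hi), zero_mul]

end Pool.Agent.Q241.BH
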