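import Pool.Agent.Q74.BH.Stm
import Pool.Agent.Q241.BH.ShiftA

/-! # Project BH (helper74), job Shift: the sliding windows -/

set_option autoImplicit false

namespace Pool.Agent.Q241.BH

open Finset
open Pool.Agent.Q74.BH

/-- the end points of the moved windows -/
lemma ceil_move (m o o₀ w : ℕ) (ho : o₀ ≤ o) (hom : 3 ^ o ≤ 2 ^ m) (x : ℝ) :
    ⌈(x + (⌊(2 : ℝ) ^ m * w / 3 ^ o₀⌋₊ : ℝ)) * 3 ^ o / 2 ^ m⌉ ≤ ⌈x * 3 ^ o / 2 ^ m⌉ + 3 ^ (o - o₀) * w ∧
    ⌈x * 3 ^ o / 2 ^ m⌉ + 3 ^ (o - o₀) * w ≤ ⌈(x + (⌊(2 : ℝ) ^ m * w / 3 ^ o₀⌋₊ : ℝ)) * 3 ^ o / 2 ^ m⌉ + 1 := by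
  set δ := ⌊(2 : ℝ) ^ m * w / 3 ^ o₀⌋₊ with hδ
  have h1 : (δ : ℝ) ≤ (2 : ℝ) ^ m * w / 3 ^ o₀ := Nat.floor_le (by positivity)
  have h2 : (2 : ℝ) ^ m * w / 3 ^ o₀ < δ + 1 := Nat.lt_floor_add_one _
  set t : ℝ := 3 ^ o / 2 ^ m with ht
  have ht0 : 0 < t := by positivity
  have ht1 : t ≤ 1 := by
    rw [ht, div_le_one (by positivity)]
    exact_mod_cast hom
  have hs : ((3 ^ (o - o₀) * w : ℤ) : ℝ) = t * ((2 : ℝ) ^ m * w / 3 ^ o₀) := by
    have e1 : (3 : ℝ) ^ o = 3 ^ (o - o₀) * 3 ^ o₀ := by rw [← pow_add]; congr 1; omega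
    rw [ht, e1]
    push_cast
    field_simp
  have e2 : ⌈x * 3 ^ o / 2 ^ m⌉ + 3 ^ (o - o₀) * w = ⌈x * t + t * ((2 : ℝ) ^ m * w / 3 ^ o₀)⌉ := by
    rw [← hs, Int.ceil_add_intCast]
    congr 2
    rw [ht]
    ring
  have e3 : (x + (δ : ℝ)) * 3 ^ o / 2 ^ m = x * t + t * δ := by rw [ht]; ring
  rw [e2, e3]
  constructor
  · refine Int.ceil_mono ?_
    have := mul_le_mul_of_nonneg_left h1 ht0.le
    linarith
  · have h3 : x * t + t * ((2 : ℝ) ^ m * w / 3 ^ o₀) ≤ (x * t + t * δ) + 1 := by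
      have := mul_le_mul_of_nonneg_left h2.le ht0.le
      nlinarith
    calc ⌈x * t + t * ((2 : ℝ) ^ m * w / 3 ^ o₀)⌉ ≤ ⌈(x * t + t * δ) + 1⌉ := Int.ceil_mono h3
      _ = _ := Int.ceil_add_one _

theorem shift : S_Shift := by
  classical
  intro k m H μ o β θ hom hβ hper hmass o₀ ho a L w hw Ψ hΨ
  set δ := ⌊(2 : ℝ) ^ m * w / 3 ^ o₀⌋₊ with hδ
  have hδ1 : (δ : ℝ) ≤ (2 : ℝ) ^ m * w / 3 ^ o₀ := Nat.floor_le (by positivity)
  set s : Fin k → ℤ := fun i => 3 ^ (o i - o₀) * w with hs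
  -- periodicity
  have hper1 : ∀ i (z : ℤ) (n : ℕ), β i (z + 3 ^ μ * n) = β i z := by
    intro i z n
    induction n with
    | zero => simp
    | succ n ih =>
      have : z + 3 ^ μ * ((n + 1 : ℕ) : ℤ) = (z + 3 ^ μ * n) + 3 ^ μ := by push_cast; ring
      rw [this, hper, ih]
  have hperS : ∀ i (z : ℤ), β i (z + s i) = β i z := by
    intro i z
    obtain ⟨v, hv⟩ := hw
    have : z + s i = z + 3 ^ μ * ((3 ^ (o i - o₀) * v : ℕ) : ℤ) := by
      rw [hs]
      simp only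
      rw [hv]
      push_cast
      ring
    rw [this, hper1]
  set g : ℤ → ℝ := fun x => ∑ z ∈ Fintype.piFinset (fun i => Jw m (o i) H x), (∏ i, β i (z i)) * Ψ z with hg
  set h : ℤ → ℝ := fun x => ∑ z ∈ Fintype.piFinset (fun i => Jw m (o i) H x), (∏ i, β i (z i)) *
      Ψ (fun i => z i + 3 ^ (o i - o₀) * w) with hh
  have hgb : ∀ x, |g x| ≤ 2 ^ k := by
    intro x
    calc |g x| ≤ ∑ z ∈ Fintype.piFinset (fun i => Jw m (o i) H x), |(∏ i, β i (z i)) * Ψ z| :=
          abs_sum_le_sum_abs _ _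
      _ ≤ ∑ z ∈ Fintype.piFinset (fun i => Jw m (o i) H x), ∏ i, β i (z i) := by
          refine sum_le_sum fun z _ => ?_
          have h0 : 0 ≤ ∏ i, β i (z i) := prod_nonneg fun i _ => (hβ i _).1
          rw [abs_mul, abs_of_nonneg h0]
          exact mul_le_of_le_one_right h0 (hΨ z)
      _ = ∏ i, ∑ z ∈ Jw m (o i) H x, β i z := (prod_univ_sum _ _).symm
      _ ≤ ∏ _i : Fin k, (2 : ℝ) := prod_le_prod (fun i _ => sum_nonneg fun z _ => (hβ i z).1) fun i _ => hmass i x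
      _ = 2 ^ k := by rw [prod_const, card_univ, Fintype.card_fin]
  -- the moved windows
  have hmove : ∀ x : ℤ, ∀ i, ∃ A B A' B' : ℤ, Jw m (o i) H (x + δ) = Ico A B ∧
      (Jw m (o i) H x).image (fun z => z + s i) = Ico A' B' ∧ A ≤ A' ∧ A' ≤ A + 1 ∧ B ≤ B' ∧ B' ≤ B + 1 := by
    intro x i
    have h1 := ceil_move m (o i) o₀ w (ho i) (hom i) (x : ℝ)
    have h2 := ceil_move m (o i) o₀ w (ho i) (hom i) ((x : ℝ) + H)
    rw [← hδ] at h1 h2
    refine ⟨⌈((x : ℝ) + δ) * 3 ^ (o i) / 2 ^ m⌉, ⌈((x : ℝ) + H + δ) * 3 ^ (o i) / 2 ^ m⌉,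
      ⌈(x : ℝ) * 3 ^ (o i) / 2 ^ m⌉ + 3 ^ (o i - o₀) * w, ⌈((x : ℝ) + H) * 3 ^ (o i) / 2 ^ m⌉ + 3 ^ (o i - o₀) * w,
      ?_, ?_, h1.1, h1.2, h2.1, h2.2⟩
    · unfold Jw
      push_cast
      congr 4
      ring
    · unfold Jw
      rw [image_add_right_Ico]
  have hdiff : ∀ x : ℤ, |h x - g (x + δ)| ≤ k * (2 * θ) * 2 ^ k / 2 := by
    intro x
    set I : Fin k → Finset ℤ := fun i => Jw m (o i) H (x + δ) with hI
    set I' : Fin k → Finset ℤ := fun i => (Jw m (o i) H x).image (fun z => z + s i) with hI'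
    set U : Fin k → Finset ℤ := fun i => I i ∪ I' i with hU
    have hinj : ∀ i, Function.Injective (fun z : ℤ => z + s i) := fun i z z' hzz => add_right_cancel hzz
    have eh : h x = ∑ z ∈ Fintype.piFinset I', (∏ i, β i (z i)) * Ψ z := by
      rw [hh]
      refine sum_nbij' (fun z i => z i + s i) (fun z i => z i - s i) ?_ ?_ ?_ ?_ ?_
      · intro z hz
        rw [Fintype.mem_piFinset] at hz ⊢
        exact fun i => mem_image_of_mem _ (hz i)
      · intro z hz
        rw [Fintype.mem_piFinset] at hz ⊢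
        intro i
        obtain ⟨y, hy, hy2⟩ := mem_image.1 (hz i)
        rw [← hy2, add_sub_cancel_right]
        exact hy
      · intro z _
        funext i
        simp
      · intro z _
        funext i
        simp
      · intro z _
        simp only [hperS]
        rfl
    have eg : g (x + δ) = ∑ z ∈ Fintype.piFinset I, (∏ i, β i (z i)) * Ψ z := rfl
    rw [eh, eg, sum_ext k I' U (fun i => subset_union_right) β Ψ, sum_ext k I U (fun i => subset_union_left) β Ψ,
      ← sum_sub_distrib]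
    have h1 := prod_diff k U (fun i z => if z ∈ I i then β i z else 0) (fun i z => if z ∈ I' i then β i z else 0) (2 * θ)
      (by
        intro i z
        split_ifs
        · exact (hβ i z).1
        · exact le_rfl)
      (by
        intro i z
        split_ifs
        · exact (hβ i z).1
        · exact le_rfl)
      (by
        intro i
        rw [← sum_filter]
        have : (U i).filter (fun z => z ∈ I i) = I i := by
          ext z
          rw [mem_filter, hU]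
          simp only [mem_union]
          tauto
        rw [this]
        exact hmass i _)
      (by
        intro i
        rw [← sum_filter]
        have : (U i).filter (fun z => z ∈ I' i) = I' i := by
          ext z
          rw [mem_filter, hU]
          simp only [mem_union]
          tauto
        rw [this, hI']
        simp only
        rw [sum_image (fun z _ z' _ hzz => hinj i hzz)]
        simp only [hperS]
        exact hmass i _)
      (by
        intro i
        obtain ⟨A, B, A', B', e1, e2, h1, h2, h3, h4⟩ := hmove x i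
        have e1' : I i = Ico A B := e1
        have e2' : I' i = Ico A' B' := e2
        rw [e1', e2']
        exact window_diff A B A' B' h1 h2 h3 h4 (β i) θ (hβ i) (U i))
    refine le_trans ?_ h1
    refine (abs_sum_le_sum_abs _ _).trans (sum_le_sum fun z _ => ?_)
    rw [← sub_mul, abs_mul, abs_sub_comm]
    exact mul_le_of_le_one_right (abs_nonneg _) (hΨ z)
  have h1 := sum_shift g (2 ^ k) hgb a L δ
  have h2 : |∑ x ∈ Ico a (a + L), h x - ∑ x ∈ Ico a (a + L), g (x + δ)| ≤ L * (k * (2 * θ) * 2 ^ k / 2) := by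
    rw [← sum_sub_distrib]
    refine (abs_sum_le_sum_abs _ _).trans ((sum_le_sum fun x _ => hdiff x).trans (le_of_eq ?_))
    rw [sum_const, Int.card_Ico, nsmul_eq_mul]
    congr 1
    simp
  have e1 : ∑ x ∈ Ico a (a + L), g x - ∑ x ∈ Ico a (a + L), h x =
      -((∑ x ∈ Ico a (a + L), h x - ∑ x ∈ Ico a (a + L), g (x + δ)) +
        (∑ x ∈ Ico a (a + L), g (x + δ) - ∑ x ∈ Ico a (a + L), g x)) := by ring
  rw [e1, abs_neg]
  refine (abs_add_le _ _).trans ((add_le_add h2 h1).trans ?_)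
  have h3 := mul_le_mul_of_nonneg_left hδ1 (by positivity : (0 : ℝ) ≤ 2 * 2 ^ k)
  linarith

end Pool.Agent.Q241.BH
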